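import Mathlib

set_option autoImplicit false

namespace Pool.Agent.Results.MP_e1f2d0_co.No

open Finset

variable {F : Type} [Field F] [Fintype F] [DecidableEq F] {ι : Type} [Fintype ι] [DecidableEq ι]

omit [Fintype F] in
theorem gauss (S : Finset Fˣ) (h : ∀ s, s ∈ S ↔ -s ∉ S) (t : Fˣ) :
    (-1) ^ #{s ∈ S | t * s ∉ S} * t ^ #S = 1 := by
  let ψ : Fˣ → Fˣ := fun s => (if t * s ∉ S then -1 else 1) * (t * s)
  have hm : ∀ s, ψ s ∈ S := fun s => by
    by_cases e : t * s ∈ S
    · simp [ψ, e]
    · simpa [ψ, e, h (t * s)] using (h (t * s)).not.1 e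
  have hi : Set.InjOn ψ S := fun a ha b hb e => by
    simp only [ψ] at e
    split_ifs at e <;> simp only [neg_mul, one_mul, neg_inj, mul_right_inj, ← mul_neg] at e
    · exact e
    · exact absurd (e ▸ ha) ((h b).1 hb)
    · exact absurd (e ▸ hb) ((h a).1 ha)
    · exact e
  have e : S.image ψ = S := eq_of_subset_of_card_le
    (fun x hx => by obtain ⟨s, -, rfl⟩ := mem_image.1 hx; exact hm s)
    (card_image_of_injOn hi).ge
  have p : ∏ s ∈ S, ψ s = ∏ s ∈ S, s := by
    conv_rhs => rw [← e]
    rw [prod_image hi]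
  simp only [ψ, prod_mul_distrib, prod_const, prod_ite, one_pow, mul_one, ← mul_assoc] at p
  exact mul_eq_right.1 p

theorem ratio (M : ι → ι → Fˣ) (hc : Fintype.card ι = Fintype.card Fˣ + 1)
    (hs : ∀ i j, M i j = M j i)
    (h2 : ∀ i k j l, i ≠ k → j ≠ l → j ≠ i → j ≠ k → l ≠ i → l ≠ k →
      M i j * M k l ≠ M i l * M k j) :
    ∃ N : ι → ι → Fˣ, ∀ i k t, i ≠ k →
      #{j | j ≠ i ∧ j ≠ k ∧ N i j = t * N k j} = if t = -1 then 0 else 1 := by
  let R : ι → Fˣ := fun i => ∏ j ∈ univ.erase i, M i j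
  refine ⟨fun i j => R i * M i j, fun i k t hik => ?_⟩
  let A := (univ.erase i).erase k
  let φ : ι → Fˣ := fun j => R i * M i j / (R k * M k j)
  have mA : ∀ j, j ∈ A ↔ j ≠ i ∧ j ≠ k := fun j => by simp [A, and_comm]
  have hi : Set.InjOn φ A := fun j hj l hl e => by
    by_contra hjl
    refine h2 i k j l hik hjl ((mA j).1 hj).1 ((mA j).1 hj).2 ((mA l).1 hl).1 ((mA l).1 hl).2 ?_
    rw [div_eq_div_iff_mul_eq_mul] at e
    apply mul_left_cancel (a := R i * R k)
    rw [mul_mul_mul_comm, e, mul_mul_mul_comm]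
  have ki : k ∈ univ.erase i := mem_erase.2 ⟨hik.symm, mem_univ k⟩
  have cA : #A + 1 = Fintype.card Fˣ := by
    have a : #A + 1 = _ := card_erase_add_one ki
    have b := card_erase_add_one (mem_univ i)
    rw [card_univ] at b
    omega
  have p1 : (∏ j ∈ A, M i j) * M i k = R i := prod_erase_mul _ _ ki
  have p2 : (∏ j ∈ A, M k j) * M i k = R k := by
    rw [hs i k, show A = (univ.erase k).erase i from erase_right_comm]
    exact prod_erase_mul _ _ (mem_erase.2 ⟨hik, mem_univ i⟩)
  have p3 : ∏ j ∈ A, φ j = 1 := by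
    have := pow_card_eq_one (x := R i / R k)
    rw [← cA, pow_succ] at this
    rw [← this]
    simp only [φ, mul_div_mul_comm, prod_mul_distrib, prod_const, prod_div_distrib]
    congr 1
    rw [← p1, ← p2, mul_div_mul_right_eq_div]
  have cI := card_image_of_injOn hi
  obtain ⟨r, hr⟩ := card_eq_one.1 (show #(A.image φ)ᶜ = 1 by rw [card_compl]; omega)
  have p4 := prod_mul_prod_compl (A.image φ) (fun x => x)
  rw [hr, prod_singleton, prod_image hi, p3, one_mul,
    FiniteField.prod_univ_units_id_eq_neg_one] at p4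
  have mI : t ∈ A.image φ ↔ t ≠ -1 := by
    rw [← not_iff_not, ← mem_compl, hr, p4, mem_singleton, not_not]
  have e : ({j | j ≠ i ∧ j ≠ k ∧ R i * M i j = t * (R k * M k j)} : Finset ι) =
      {j ∈ A | φ j = t} := by
    ext j
    simp only [mem_filter, mem_univ, true_and, mA, φ, div_eq_iff_eq_mul, and_assoc]
  rw [e]
  split_ifs with h
  · exact card_eq_zero.2 (filter_eq_empty_iff.2 fun j hj e =>
      mI.1 (mem_image.2 ⟨j, hj, e⟩) h)
  · obtain ⟨j, hj, rfl⟩ := mem_image.1 (mI.2 h)
    refine card_eq_one.2 ⟨j, ?_⟩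
    ext l
    simp only [mem_filter, mem_singleton]
    exact ⟨fun h => hi h.1 hj h.2, fun h => by rw [h]; exact ⟨hj, rfl⟩⟩

theorem count (N : ι → ι → Fˣ) (t : Fˣ) :
    ∑ j, ∑ s, #{i | i ≠ j ∧ N i j = t * s} * #{i | i ≠ j ∧ N i j = s} =
      ∑ i, ∑ k, #{j | j ≠ i ∧ j ≠ k ∧ N i j = t * N k j} := by
  simp only [card_filter, sum_mul_sum]
  conv_rhs => rw [sum_congr rfl fun i _ => sum_comm, sum_comm]
  refine sum_congr rfl fun j _ => ?_
  rw [sum_comm]
  refine sum_congr rfl fun i _ => ?_
  rw [sum_comm]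
  refine sum_congr rfl fun k _ => ?_
  rw [sum_eq_single (N k j) (fun s _ h => by simp [h.symm]) (by simp)]
  by_cases a : i = j <;> by_cases b : k = j <;> simp [a, b, eq_comm (a := j)]

theorem core (N : ι → ι → Fˣ) (hc : Fintype.card ι = Fintype.card Fˣ + 1)
    (h : ∀ i k t, i ≠ k →
      #{j | j ≠ i ∧ j ≠ k ∧ N i j = t * N k j} = if t = -1 then 0 else 1)
    (ho : Odd (Fintype.card ι)) (h5 : 5 < Fintype.card ι) : False := by
  set m := Fintype.card Fˣ with hm
  obtain ⟨g, hg⟩ := IsCyclic.exists_ofOrder_eq_natCard (α := Fˣ)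
  rw [Nat.card_eq_fintype_card, ← hm] at hg
  have gp : ∀ a, 0 < a → a < m → g ^ a ≠ 1 := fun a a0 am =>
    pow_ne_one_of_lt_orderOf a0.ne' (hg ▸ am)
  obtain ⟨n, hn⟩ := ho
  have n1 : (1 : Fˣ) ≠ -1 := fun e => gp n (by omega) (by omega) (by
    have : (g ^ n) ^ 2 = 1 := by rw [← pow_mul, show n * 2 = m by omega, pow_card_eq_one]
    rcases (Units.inv_eq_self_iff _).1 (inv_eq_of_mul_eq_one_left ((sq _).symm.trans this))
      with h | h
    exacts [h, h.trans e.symm])
  let c : ι → Fˣ → ℕ := fun j s => #{i | i ≠ j ∧ N i j = s}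
  have ce : ∀ i : ι, #(univ.erase i) = m := fun i => by
    rw [card_erase_of_mem (mem_univ _), card_univ]
    omega
  have T : ∀ t, ∑ j, ∑ s, c j (t * s) * c j s =
      (m + 1) * ((if t = 1 then m else 0) + if t = -1 then 0 else m) := fun t => by
    rw [count, ← hc, ← card_univ, ← smul_eq_mul, ← sum_const]
    refine sum_congr rfl fun i _ => ?_
    rw [← add_sum_erase _ _ (mem_univ i), sum_congr rfl fun k hk => h i k t (mem_erase.1 hk).1.symm,
      sum_const, ce]
    congr 1
    · split_ifs with e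
      · rw [← ce i]
        congr 1
        ext j
        simp [e]
      · simp [e, eq_comm (b := t * _)]
    · split_ifs <;> simp
  have S1 : ∀ j, ∑ s, c j s = m := fun j => by
    rw [← ce j, card_eq_sum_card_fiberwise (f := fun i => N i j) (t := univ) (by simp)]
    refine sum_congr rfl fun s _ => congrArg card ?_
    ext i
    simp
  have Z : ∀ j s, c j (-s) * c j s = 0 := fun j s => by
    have := T (-1)
    simp only [n1.symm, if_false, if_true, add_zero, mul_zero, sum_eq_zero_iff, mem_univ,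
      true_imp_iff, neg_one_mul] at this
    exact this j s
  have D : ∀ j s, c j s + c j (-s) = 2 := by
    have t1 := T 1
    simp only [n1, if_true, if_false, one_mul] at t1
    have z : ∑ j, ∑ s, ((c j s : ℤ) + c j (-s) - 2) ^ 2 = 0 := by
      have e : ∀ j, ∑ s, ((c j s : ℤ) + c j (-s) - 2) ^ 2 =
          2 * ((∑ s, c j s * c j s : ℕ) : ℤ) - 4 * m := fun j => by
        have a := Equiv.sum_comp (Equiv.neg Fˣ) fun s => (c j s : ℤ)
        have b := Equiv.sum_comp (Equiv.neg Fˣ) fun s => (c j s : ℤ) * c j s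
        have d : ∑ s, (c j s : ℤ) = m := by exact_mod_cast S1 j
        simp only [Equiv.neg_apply] at a b
        rw [sum_congr rfl fun s _ => show ((c j s : ℤ) + c j (-s) - 2) ^ 2 =
          c j s * c j s + c j (-s) * c j (-s) - 4 * c j s - 4 * c j (-s) + 4 by
            have : (c j (-s) : ℤ) * c j s = 0 := by exact_mod_cast Z j s
            linear_combination 2 * this]
        simp only [sum_add_distrib, sum_sub_distrib, ← mul_sum, a, b, d, sum_const, card_univ, ← hm]
        push_cast
        ring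
      simp only [e, sum_sub_distrib, ← mul_sum, ← Nat.cast_sum, t1, sum_const, card_univ, hc,
        nsmul_eq_mul]
      push_cast
      ring
    intro j s
    have := (sum_eq_zero_iff_of_nonneg fun _ _ => sq_nonneg _).1 ((sum_eq_zero_iff_of_nonneg
      fun _ _ => sum_nonneg fun _ _ => sq_nonneg _).1 z j (mem_univ _)) s (mem_univ _)
    have := pow_eq_zero_iff two_ne_zero |>.1 this
    omega
  let S : ι → Finset Fˣ := fun j => {s | c j s = 2}
  have cS : ∀ j s, c j s = if s ∈ S j then 2 else 0 := fun j s => by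
    have a := D j s
    have b := Z j s
    simp only [S, mem_filter, mem_univ, true_and]
    split_ifs with e
    · exact e
    · rcases mul_eq_zero.1 b with b | b <;> omega
  have hS : ∀ j s, s ∈ S j ↔ -s ∉ S j := fun j s => by
    have a := D j s
    rw [cS, cS] at a
    split_ifs at a <;> simp_all
  have nS : ∀ j, #(S j) = n := fun j => by
    have a := S1 j
    simp only [cS, sum_ite_mem, univ_inter, sum_const, smul_eq_mul] at a
    omega
  have K : ∀ t, t ≠ 1 → t ≠ -1 →
      4 * ∑ j, #{s ∈ S j | t * s ∉ S j} + (m + 1) * m = (m + 1) * (4 * n) := fun t a b => by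
    have e := T t
    simp only [a, b, if_false, zero_add] at e
    rw [← e, mul_sum, ← sum_add_distrib, ← hc, ← card_univ, ← smul_eq_mul, ← sum_const]
    refine sum_congr rfl fun j _ => ?_
    rw [← nS j, ← card_filter_add_card_filter_not (s := S j) (fun s => t * s ∈ S j), mul_add,
      add_comm]
    congr 1
    rw [card_filter, mul_sum, ← univ_inter (S j), ← sum_ite_mem, univ_inter]
    refine sum_congr rfl fun s _ => ?_
    rw [cS, cS]
    split_ifs <;> rfl
  have g2 : g ^ 2 ≠ 1 := gp 2 (by omega) (by omega)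
  have k1 := K g (fun e => g2 (by simp [e])) (fun e => g2 (by simp [e]))
  have k2 := K (g ^ 2) g2 fun e => gp 4 (by omega) (by omega) (by
    rw [show 4 = 2 * 2 from rfl, pow_mul, e]; simp)
  have o1 : ∀ j, #{s ∈ S j | g * s ∉ S j} % 2 = 1 := fun j => by
    have a := gauss _ (hS j) g
    by_contra e
    rw [(Nat.even_iff.2 (by omega)).neg_one_pow, one_mul, nS] at a
    exact gp n (by omega) (by omega) a
  have o2 : ∀ j, #{s ∈ S j | g ^ 2 * s ∉ S j} % 2 = 0 := fun j => by
    have a := gauss _ (hS j) (g ^ 2)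
    by_contra e
    rw [(Nat.odd_iff.2 (by omega)).neg_one_pow, nS, ← pow_mul, show 2 * n = m by omega,
      pow_card_eq_one, mul_one] at a
    exact n1 a.symm
  have s1 := sum_nat_mod univ 2 fun j => #{s ∈ S j | g * s ∉ S j}
  have s2 := sum_nat_mod univ 2 fun j => #{s ∈ S j | g ^ 2 * s ∉ S j}
  simp only [o1, o2, sum_const, card_univ, smul_eq_mul] at s1 s2
  omega

theorem result (p : ℕ) (hp : p.Prime) (h5 : 5 < p) (M : Matrix (Fin p) (Fin p) (ZMod p))
    (hs : M.IsSymm) (h0 : ∀ i : Fin p, i.val + 1 < p → M i i = 0) :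
    ∃ i k j l, i ≠ k ∧ j ≠ l ∧ M i j * M k l - M i l * M k j = 0 := by
  have := Fact.mk hp
  by_contra! h
  have nz : ∀ i j, i ≠ j → M i j ≠ 0 := fun i j hij e => h i j i j hij hij (by
    have : M i i = 0 ∨ M j j = 0 := by
      have := Fin.val_ne_of_ne hij
      by_cases a : i.val + 1 < p
      exacts [.inl (h0 i a), .inr (h0 j (by omega))]
    rw [e, zero_mul, sub_zero, mul_eq_zero]
    exact this)
  have hc : Fintype.card (Fin p) = Fintype.card (ZMod p)ˣ + 1 := by
    rw [ZMod.card_units, Fintype.card_fin]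
    omega
  obtain ⟨N, hN⟩ := ratio (fun i j => if e : i = j then 1 else Units.mk0 (M i j) (nz i j e)) hc
    (fun i j => by
      by_cases e : i = j
      · rw [e]
      · simp only [e, Ne.symm e, dite_false, Units.mk0_inj]
        exact (hs.apply j i))
    fun i k j l a b c d e f q => h i k j l a b (by
      simp only [c.symm, d.symm, e.symm, f.symm, dite_false] at q
      exact sub_eq_zero.2 (congrArg Units.val q))
  exact core N hc hN (by simpa using hp.odd_of_ne_two (by omega)) (by simpa using h5)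

end Pool.Agent.Results.MP_e1f2d0_co.No
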